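import Pool.Agent.Helper826_BF.Base

set_option autoImplicit false

namespace Pool.Agent.Helper826_BF

open Finset
open scoped InnerProductSpace

section sph

variable {E : Type*} [NormedAddCommGroup E] [InnerProductSpace ℝ E]

theorem sph_core (d k : ℕ) (hkd : k < d) (c x : E) (v : Fin (d + 1) → E) (hc : ‖c‖ = 1)
    (hx : ‖x‖ = 1) (hv : ∀ i, ‖v i‖ = 1) (hli : LinearIndependent ℝ v) (C : ℝ) (hC : 0 < C)
    (hvC : ∀ i, C ≤ ⟪v i, c⟫_ℝ) (l : Fin (d + 1) → ℝ) (hl : ∀ i, 0 ≤ l i)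
    (hxl : x = ∑ i, l i • v i) (r : ℝ) (hr0 : 0 < r)
    (hmiss : ∀ u : Fin (d + 1) → ℝ, (∀ i, 0 ≤ u i) →
      (∃ s : Finset (Fin (d + 1)), s.card = k + 1 ∧ ∀ i, i ∉ s → u i = 0) →
      ⟪x, ∑ i, u i • v i⟫_ℝ ≤ r * ‖∑ i, u i • v i‖) :
    1 / r ^ 2 - 1 ≤ ((d : ℝ) - k) / ((d : ℝ) * (k + 1)) * (1 / C ^ 2 - 1) := by
  have hd : (0 : ℝ) < d := by exact_mod_cast (Nat.zero_le k).trans_lt hkd
  have hkd' : (k : ℝ) < d := by exact_mod_cast hkd
  have hκ : 0 ≤ ((d : ℝ) - k) / ((d : ℝ) * (k + 1)) := by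
    apply div_nonneg
    · linarith
    · positivity
  have ha : ∀ i, 0 < ⟪v i, c⟫_ℝ := fun i => hC.trans_le (hvC i)
  have hgsum : ⟪x, c⟫_ℝ = ∑ i, l i * ⟪v i, c⟫_ℝ := by
    rw [hxl, sum_inner]
    exact Finset.sum_congr rfl fun i _ => by rw [real_inner_smul_left]
  have hg0 : 0 < ⟪x, c⟫_ℝ := by
    rw [hgsum]
    have h0 : 0 ≤ ∑ i, l i * ⟪v i, c⟫_ℝ := Finset.sum_nonneg fun i _ => mul_nonneg (hl i) (ha i).le
    refine lt_of_le_of_ne h0 fun h => ?_
    have h1 := (Finset.sum_eq_zero_iff_of_nonneg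
      (fun i _ => mul_nonneg (hl i) (ha i).le)).1 h.symm
    have h2 : x = 0 := by
      rw [hxl]
      refine Finset.sum_eq_zero fun i hi => ?_
      have := h1 i hi
      rcases mul_eq_zero.1 this with h3 | h3
      · rw [h3, zero_smul]
      · exact absurd h3 (ha i).ne'
    rw [h2, norm_zero] at hx
    exact zero_ne_one hx
  have hg1 : ⟪x, c⟫_ℝ ≤ 1 := by
    have := real_inner_le_norm x c
    rwa [hx, hc, one_mul] at this
  set g := ⟪x, c⟫_ℝ with hgdef
  have hp : AffineIndependent ℝ (fun i => (1 / ⟪v i, c⟫_ℝ) • v i) := by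
    apply LinearIndependent.affineIndependent
    rw [Fintype.linearIndependent_iff]
    intro f hf i
    have h1 : ∑ j, (f j * (1 / ⟪v j, c⟫_ℝ)) • v j = 0 := by
      rw [← hf]
      exact Finset.sum_congr rfl fun j _ => by rw [smul_smul]
    have h2 := Fintype.linearIndependent_iff.1 hli _ h1 i
    exact (mul_eq_zero.1 h2).resolve_right (one_div_ne_zero (ha i).ne')
  have hw1 : ∑ i, l i * ⟪v i, c⟫_ℝ / g = 1 := by
    rw [← Finset.sum_div, ← hgsum, div_self hg0.ne']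
  have hX : ∑ i, (l i * ⟪v i, c⟫_ℝ / g) • ((1 / ⟪v i, c⟫_ℝ) • v i) = (1 / g) • x := by
    rw [hxl, Finset.smul_sum]
    refine Finset.sum_congr rfl fun i _ => ?_
    rw [smul_smul, smul_smul]
    congr 1
    have := (ha i).ne'
    field_simp
  have hmain := power_all d k hkd (fun i => (1 / ⟪v i, c⟫_ℝ) • v i) hp
    ((1 / r ^ 2) • ((1 / g) • x)) (1 / g ^ 2 * (1 - r ^ 2) / r ^ 4) ?_
    (fun i => l i * ⟪v i, c⟫_ℝ / g) (fun i => div_nonneg (mul_nonneg (hl i) (ha i).le) hg0.le) hw1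
  · rw [hX] at hmain
    have hnX : ‖(1 / g) • x‖ ^ 2 = 1 / g ^ 2 := by
      rw [norm_smul, hx, mul_one, Real.norm_eq_abs, sq_abs, one_div_pow]
    have hdiff : ‖(1 / g) • x - (1 / r ^ 2) • ((1 / g) • x)‖ ^ 2
        = (1 - 1 / r ^ 2) ^ 2 * (1 / g ^ 2) := by
      have : (1 / g) • x - (1 / r ^ 2) • ((1 / g) • x) = (1 - 1 / r ^ 2) • ((1 / g) • x) := by
        rw [sub_smul, one_smul]
      rw [this, norm_smul, mul_pow, hnX, Real.norm_eq_abs, sq_abs]
    rw [hdiff, hnX] at hmain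
    have hsum : ∑ i, l i * ⟪v i, c⟫_ℝ / g * ‖(1 / ⟪v i, c⟫_ℝ) • v i‖ ^ 2 ≤ 1 / C ^ 2 := by
      have h1 : ∀ i ∈ (Finset.univ : Finset (Fin (d + 1))),
          l i * ⟪v i, c⟫_ℝ / g * ‖(1 / ⟪v i, c⟫_ℝ) • v i‖ ^ 2
            ≤ l i * ⟪v i, c⟫_ℝ / g * (1 / C ^ 2) := by
        intro i _
        refine mul_le_mul_of_nonneg_left ?_ (div_nonneg (mul_nonneg (hl i) (ha i).le) hg0.le)
        rw [norm_smul, hv i, mul_one, Real.norm_eq_abs, sq_abs, one_div_pow]
        exact one_div_le_one_div_of_le (by positivity) (pow_le_pow_left₀ hC.le (hvC i) 2)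
      refine (Finset.sum_le_sum h1).trans ?_
      rw [← Finset.sum_mul, hw1, one_mul]
    have h2 : 1 / g ^ 2 * (1 - r ^ 2) / r ^ 4 - (1 - 1 / r ^ 2) ^ 2 * (1 / g ^ 2)
        = 1 / g ^ 2 * (1 / r ^ 2 - 1) := by
      field_simp
      ring
    rw [h2] at hmain
    have h3 : 1 / g ^ 2 * (1 / r ^ 2 - 1)
        ≤ ((d : ℝ) - k) / ((d : ℝ) * (k + 1)) * (1 / C ^ 2 - 1 / g ^ 2) :=
      hmain.trans (mul_le_mul_of_nonneg_left (by linarith) hκ)
    have hg2 : 0 < g ^ 2 := by positivity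
    have h4 : 1 / r ^ 2 - 1
        ≤ g ^ 2 * (((d : ℝ) - k) / ((d : ℝ) * (k + 1)) * (1 / C ^ 2 - 1 / g ^ 2)) := by
      have := mul_le_mul_of_nonneg_left h3 hg2.le
      have h5 : g ^ 2 * (1 / g ^ 2 * (1 / r ^ 2 - 1)) = 1 / r ^ 2 - 1 := by
        field_simp
      rwa [h5] at this
    have h6 : g ^ 2 * (((d : ℝ) - k) / ((d : ℝ) * (k + 1)) * (1 / C ^ 2 - 1 / g ^ 2))
        = ((d : ℝ) - k) / ((d : ℝ) * (k + 1)) * (g ^ 2 * (1 / C ^ 2) - 1) := by
      field_simp
    rw [h6] at h4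
    refine h4.trans (mul_le_mul_of_nonneg_left ?_ hκ)
    have h7 : g ^ 2 ≤ 1 := pow_le_one₀ hg0.le hg1
    have h8 : 0 ≤ 1 / C ^ 2 := by positivity
    nlinarith
  · rintro u hu0 hu1 ⟨s, hs, hsu⟩
    have hy : ∑ i, u i • ((1 / ⟪v i, c⟫_ℝ) • v i) = ∑ i, (u i * (1 / ⟪v i, c⟫_ℝ)) • v i :=
      Finset.sum_congr rfl fun i _ => by rw [smul_smul]
    have hm : ⟪x, ∑ i, (u i * (1 / ⟪v i, c⟫_ℝ)) • v i⟫_ℝ
        ≤ r * ‖∑ i, (u i * (1 / ⟪v i, c⟫_ℝ)) • v i‖ :=
      hmiss (fun i => u i * (1 / ⟪v i, c⟫_ℝ))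
        (fun i => mul_nonneg (hu0 i) (one_div_nonneg.2 (ha i).le))
        ⟨s, hs, fun i hi => by simp [hsu i hi]⟩
    rw [hy]
    set y := ∑ i, (u i * (1 / ⟪v i, c⟫_ℝ)) • v i with hydef
    rw [norm_sub_sq_real, norm_smul, norm_smul, hx, inner_smul_right, inner_smul_right,
      real_inner_comm x y, Real.norm_eq_abs, Real.norm_eq_abs]
    have e1 : |1 / r ^ 2| = 1 / r ^ 2 := abs_of_pos (by positivity)
    have e2 : |1 / g| = 1 / g := abs_of_pos (by positivity)
    rw [e1, e2]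
    have h1 : 1 / r ^ 2 * (1 / g * ⟪x, y⟫_ℝ) ≤ 1 / r ^ 2 * (1 / g * (r * ‖y‖)) := by
      refine mul_le_mul_of_nonneg_left ?_ (by positivity)
      exact mul_le_mul_of_nonneg_left hm (by positivity)
    have h2 : 0 ≤ (‖y‖ - 1 / (g * r)) ^ 2 := sq_nonneg _
    have h3 : (‖y‖ - 1 / (g * r)) ^ 2
        = ‖y‖ ^ 2 - 2 * (1 / r ^ 2 * (1 / g * (r * ‖y‖))) + 1 / (g ^ 2 * r ^ 2) := by
      field_simp
      ring
    have h4 : 1 / g ^ 2 * (1 - r ^ 2) / r ^ 4
        = (1 / r ^ 2 * (1 / g * 1)) ^ 2 - 1 / (g ^ 2 * r ^ 2) := by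
      field_simp
    rw [h4]
    linarith

end sph

section hyp

variable {E : Type*} [NormedAddCommGroup E] [InnerProductSpace ℝ E]

/-- The Lorentz form. -/
noncomputable def lor (x y : ℝ × E) : ℝ := x.1 * y.1 - ⟪x.2, y.2⟫_ℝ

/-- The Lorentz form as a linear map. -/
noncomputable def lorL (x : ℝ × E) : (ℝ × E) →ₗ[ℝ] ℝ where
  toFun y := lor x y
  map_add' y z := by simp only [lor, Prod.fst_add, Prod.snd_add, inner_add_right]; ring
  map_smul' a y := by
    simp only [lor, Prod.smul_fst, Prod.smul_snd, real_inner_smul_right, smul_eq_mul,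
      RingHom.id_apply]
    ring

/-- The space part of the boost taking `x` to the base point. -/
noncomputable def boost (x : ℝ × E) : (ℝ × E) →ₗ[ℝ] E where
  toFun y := y.2 + (⟪x.2, y.2⟫_ℝ / (1 + x.1) - y.1) • x.2
  map_add' y z := by
    simp only [Prod.fst_add, Prod.snd_add, inner_add_right]
    module
  map_smul' a y := by
    simp only [Prod.smul_fst, Prod.smul_snd, real_inner_smul_right, smul_eq_mul, RingHom.id_apply]
    module

theorem norm_boost (x : ℝ × E) (hx0 : 0 < x.1) (hx : lor x x = 1) (y : ℝ × E) :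
    ‖boost x y‖ ^ 2 = lor x y ^ 2 - lor y y := by
  have hN : ‖x.2‖ ^ 2 = x.1 ^ 2 - 1 := by
    simp only [lor, real_inner_self_eq_norm_sq] at hx
    linarith
  show ‖y.2 + (⟪x.2, y.2⟫_ℝ / (1 + x.1) - y.1) • x.2‖ ^ 2 = _
  rw [norm_add_sq_real, norm_smul, mul_pow, inner_smul_right, hN, real_inner_comm x.2 y.2, Real.norm_eq_abs,
    sq_abs]
  simp only [lor, real_inner_self_eq_norm_sq]
  have : 1 + x.1 ≠ 0 := by positivity
  field_simp
  ring

theorem lor_ge_one (x y : ℝ × E) (hx0 : 0 < x.1) (hx : lor x x = 1) (hy0 : 0 < y.1)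
    (hy : lor y y = 1) : 1 ≤ lor x y := by
  have h1 : x.1 ^ 2 = 1 + ‖x.2‖ ^ 2 := by
    simp only [lor, real_inner_self_eq_norm_sq] at hx
    linarith
  have h2 : y.1 ^ 2 = 1 + ‖y.2‖ ^ 2 := by
    simp only [lor, real_inner_self_eq_norm_sq] at hy
    linarith
  have h3 : 1 + ‖x.2‖ * ‖y.2‖ ≤ x.1 * y.1 := by
    refine le_of_sq_le_sq ?_ (by positivity)
    rw [mul_pow, h1, h2]
    nlinarith [sq_nonneg (‖x.2‖ - ‖y.2‖)]
  have h4 := real_inner_le_norm x.2 y.2
  simp only [lor]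
  linarith

theorem hyp_core (d k : ℕ) (hkd : k < d) (c x : ℝ × E) (v : Fin (d + 1) → ℝ × E)
    (hc : 0 < c.1 ∧ lor c c = 1) (hx : 0 < x.1 ∧ lor x x = 1)
    (hv : ∀ i, 0 < (v i).1 ∧ lor (v i) (v i) = 1) (hli : LinearIndependent ℝ v) (C : ℝ)
    (hC : 0 < C) (hvC : ∀ i, lor c (v i) ≤ C) (l : Fin (d + 1) → ℝ) (hl : ∀ i, 0 ≤ l i)
    (hxl : x = ∑ i, l i • v i) (r : ℝ) (hr0 : 0 < r)
    (hmiss : ∀ u : Fin (d + 1) → ℝ, (∀ i, 0 ≤ u i) →
      (∃ s : Finset (Fin (d + 1)), s.card = k + 1 ∧ ∀ i, i ∉ s → u i = 0) →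
      0 < lor (∑ i, u i • v i) (∑ i, u i • v i) →
      r * √(lor (∑ i, u i • v i) (∑ i, u i • v i)) ≤ lor x (∑ i, u i • v i)) :
    1 - 1 / r ^ 2 ≤ ((d : ℝ) - k) / ((d : ℝ) * (k + 1)) * (1 - 1 / C ^ 2) := by
  have hd : (0 : ℝ) < d := by exact_mod_cast (Nat.zero_le k).trans_lt hkd
  have hkd' : (k : ℝ) < d := by exact_mod_cast hkd
  have hκ : 0 ≤ ((d : ℝ) - k) / ((d : ℝ) * (k + 1)) := by
    apply div_nonneg
    · linarith
    · positivity
  have hb1 : ∀ i, 1 ≤ lor x (v i) := fun i => lor_ge_one x (v i) hx.1 hx.2 (hv i).1 (hv i).2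
  have hb : ∀ i, 0 < lor x (v i) := fun i => one_pos.trans_le (hb1 i)
  have hsum : ∀ (z : ℝ × E) (u : Fin (d + 1) → ℝ),
      lor z (∑ i, u i • v i) = ∑ i, u i * lor z (v i) := by
    intro z u
    have := map_sum (lorL z) (fun i => u i • v i) Finset.univ
    simp only [map_smul, smul_eq_mul] at this
    exact this
  have hbsum : ∀ u : Fin (d + 1) → ℝ,
      boost x (∑ i, u i • v i) = ∑ i, u i • boost x (v i) := by
    intro u
    rw [map_sum]
    simp only [map_smul]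
  have hw1 : ∑ i, l i * lor x (v i) = 1 := by
    rw [← hsum, ← hxl, hx.2]
  have hbx : boost x x = 0 := by
    have := norm_boost x hx.1 hx.2 x
    rw [hx.2] at this
    have h0 : ‖boost x x‖ ^ 2 = 0 := by rw [this]; norm_num
    exact norm_eq_zero.1 (pow_eq_zero_iff (two_ne_zero) |>.1 h0)
  have hp : AffineIndependent ℝ (fun i => (1 / lor x (v i)) • boost x (v i)) := by
    rw [affineIndependent_iff]
    intro s α hα0 hα i hi
    -- extend by zero
    set β : Fin (d + 1) → ℝ := fun j => if j ∈ s then α j / lor x (v j) else 0 with hβ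
    set z := ∑ j, β j • v j with hz
    have e1 : lor x z = 0 := by
      rw [hz, hsum]
      have : ∀ j, β j * lor x (v j) = if j ∈ s then α j else 0 := by
        intro j
        simp only [hβ]
        split_ifs
        · field_simp [(hb j).ne']
        · ring
      rw [Finset.sum_congr rfl fun j _ => this j, Finset.sum_ite_mem, Finset.univ_inter]
      exact hα0
    have e2 : boost x z = 0 := by
      rw [hz, hbsum]
      have : ∀ j, β j • boost x (v j)
          = if j ∈ s then α j • ((1 / lor x (v j)) • boost x (v j)) else 0 := by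
        intro j
        simp only [hβ]
        split_ifs
        · rw [smul_smul]
          congr 1
          ring
        · rw [zero_smul]
      rw [Finset.sum_congr rfl fun j _ => this j, Finset.sum_ite_mem, Finset.univ_inter]
      exact hα
    have hN : ‖x.2‖ ^ 2 = x.1 ^ 2 - 1 := by
      have := hx.2
      simp only [lor, real_inner_self_eq_norm_sq] at this
      linarith
    have h1x : 1 + x.1 ≠ 0 := by
      have := hx.1
      positivity
    have e3 : z.2 = -((⟪x.2, z.2⟫_ℝ / (1 + x.1) - z.1) • x.2) := by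
      have : z.2 + (⟪x.2, z.2⟫_ℝ / (1 + x.1) - z.1) • x.2 = 0 := e2
      exact eq_neg_of_add_eq_zero_left this
    have e4 : ⟪x.2, z.2⟫_ℝ = x.1 * z.1 := by
      simp only [lor] at e1
      linarith
    have e5 : ⟪x.2, z.2⟫_ℝ = -((⟪x.2, z.2⟫_ℝ / (1 + x.1) - z.1) * (x.1 ^ 2 - 1)) := by
      conv_lhs => rw [e3]
      rw [inner_neg_right, inner_smul_right, real_inner_self_eq_norm_sq, hN]
    rw [e4] at e5
    have e6 : z.1 = 0 := by
      field_simp at e5
      have h7 : (1 + x.1) * z.1 = 0 := by linarith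
      exact (mul_eq_zero.1 h7).resolve_left h1x
    have e7 : z.2 = 0 := by
      rw [e3, e4, e6]
      simp
    have e8 : ∑ j, β j • v j = 0 := Prod.ext e6 e7
    have e9 := Fintype.linearIndependent_iff.1 hli β e8 i
    simp only [hβ, hi, if_true] at e9
    rcases div_eq_zero_iff.1 e9 with h | h
    · exact h
    · exact absurd h (hb i).ne'
  have hmain := power_all d k hkd (fun i => (1 / lor x (v i)) • boost x (v i)) hp 0
    (1 - 1 / r ^ 2) ?_ (fun i => l i * lor x (v i)) (fun i => mul_nonneg (hl i) (hb i).le) hw1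
  · have hX : ∑ i, (l i * lor x (v i)) • ((1 / lor x (v i)) • boost x (v i)) = 0 := by
      have h0 := hbsum l
      rw [← hxl, hbx] at h0
      rw [h0]
      refine Finset.sum_congr rfl fun i _ => ?_
      rw [smul_smul]
      congr 1
      have := (hb i).ne'
      field_simp
    rw [hX] at hmain
    simp only [sub_zero, norm_zero, ne_eq, OfNat.ofNat_ne_zero, not_false_eq_true, zero_pow] at hmain
    have hpn : ∀ i, l i * lor x (v i) * ‖(1 / lor x (v i)) • boost x (v i)‖ ^ 2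
        = l i * lor x (v i) - l i / lor x (v i) := by
      intro i
      rw [norm_smul, mul_pow, norm_boost x hx.1 hx.2, (hv i).2, Real.norm_eq_abs, sq_abs]
      have := (hb i).ne'
      field_simp
    rw [Finset.sum_congr rfl fun i _ => hpn i, Finset.sum_sub_distrib, hw1] at hmain
    have hJ : (∑ i, l i) ^ 2 ≤ (∑ i, l i / lor x (v i)) * ∑ i, l i * lor x (v i) := by
      refine Finset.sum_sq_le_sum_mul_sum_of_sq_le_mul _ (fun i _ => div_nonneg (hl i) (hb i).le)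
        (fun i _ => mul_nonneg (hl i) (hb i).le) fun i _ => le_of_eq ?_
      have := (hb i).ne'
      field_simp
    rw [hw1, mul_one] at hJ
    have hcx : 1 ≤ lor c x := lor_ge_one c x hc.1 hc.2 hx.1 hx.2
    have hcx2 : lor c x ≤ C * ∑ i, l i := by
      conv_lhs => rw [hxl]
      rw [hsum, Finset.mul_sum]
      refine Finset.sum_le_sum fun i _ => ?_
      rw [mul_comm]
      exact mul_le_mul_of_nonneg_right (hvC i) (hl i)
    have hS : 1 / C ≤ ∑ i, l i := by
      rw [div_le_iff₀' hC]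
      linarith
    have hS2 : 1 / C ^ 2 ≤ (∑ i, l i) ^ 2 := by
      have := pow_le_pow_left₀ (by positivity) hS 2
      rwa [one_div_pow] at this
    exact hmain.trans (mul_le_mul_of_nonneg_left (by linarith) hκ)
  · rintro u hu0 hu1 ⟨s, hs, hsu⟩
    have hy : ∑ i, u i • ((1 / lor x (v i)) • boost x (v i))
        = boost x (∑ i, (u i * (1 / lor x (v i))) • v i) := by
      rw [hbsum]
      exact Finset.sum_congr rfl fun i _ => by rw [smul_smul]
    rw [hy, sub_zero, norm_boost x hx.1 hx.2]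
    have h1 : lor x (∑ i, (u i * (1 / lor x (v i))) • v i) = 1 := by
      rw [hsum]
      refine Eq.trans (Finset.sum_congr rfl fun i _ => ?_) hu1
      have := (hb i).ne'
      field_simp
    have hm := hmiss (fun i => u i * (1 / lor x (v i)))
      (fun i => mul_nonneg (hu0 i) (one_div_nonneg.2 (hb i).le))
      ⟨s, hs, fun i hi => by simp [hsu i hi]⟩
    rw [h1] at hm ⊢
    set Q := lor (∑ i, (u i * (1 / lor x (v i))) • v i) (∑ i, (u i * (1 / lor x (v i))) • v i)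
    rcases le_or_gt Q 0 with hQ | hQ
    · have : 0 ≤ 1 / r ^ 2 := by positivity
      linarith
    · have h2 := hm hQ
      have h3 : (r * √Q) ^ 2 ≤ 1 ^ 2 := pow_le_pow_left₀ (by positivity) h2 2
      rw [mul_pow, Real.sq_sqrt hQ.le, one_pow] at h3
      have h4 : Q ≤ 1 / r ^ 2 := by
        rw [le_div_iff₀ (by positivity)]
        linarith
      linarith

end hyp

end Pool.Agent.Helper826_BF
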