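import Pool.Agent.Helper826_BF.Core

set_option autoImplicit false

namespace Pool.Agent.Helper826_BF

open Finset
open scoped InnerProductSpace

/-- `√((d - k) / (d (k + 1)))`, the radius of the Euclidean statement. -/
noncomputable def kap (d k : ℕ) : ℝ := √(((d : ℝ) - k) / ((d : ℝ) * (k + 1)))

theorem kap_nonneg (d k : ℕ) : 0 ≤ kap d k := Real.sqrt_nonneg _

theorem kap_sq (d k : ℕ) (hkd : k < d) :
    kap d k ^ 2 = ((d : ℝ) - k) / ((d : ℝ) * (k + 1)) := by
  have hd : (0 : ℝ) < d := by exact_mod_cast (Nat.zero_le k).trans_lt hkd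
  have hkd' : (k : ℝ) < d := by exact_mod_cast hkd
  refine Real.sq_sqrt (div_nonneg ?_ (by positivity))
  linarith

theorem kap_le_one (d k : ℕ) (hkd : k < d) : kap d k ≤ 1 := by
  have hd : (0 : ℝ) < d := by exact_mod_cast (Nat.zero_le k).trans_lt hkd
  refine Real.sqrt_le_one.2 ?_
  rw [div_le_one (by positivity)]
  have : (0 : ℝ) ≤ k := Nat.cast_nonneg k
  nlinarith

/-! ### The sphere -/

/-- The geodesic convex hull, in the unit sphere, of the points `v i`, `i ∈ s`. -/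
def SHull {d : ℕ} (v : Fin (d + 1) → EuclideanSpace ℝ (Fin (d + 1))) (s : Finset (Fin (d + 1))) :
    Set (EuclideanSpace ℝ (Fin (d + 1))) :=
  {y | ‖y‖ = 1 ∧ ∃ u : Fin (d + 1) → ℝ, (∀ i, 0 ≤ u i) ∧ (∀ i, i ∉ s → u i = 0) ∧
    y = ∑ i, u i • v i}

theorem sph_main (d k : ℕ) (hkd : k < d) (R : ℝ) (hR0 : 0 < R) (hR : R < Real.pi / 2)
    (c : EuclideanSpace ℝ (Fin (d + 1))) (hc : ‖c‖ = 1)
    (v : Fin (d + 1) → EuclideanSpace ℝ (Fin (d + 1))) (hv : ∀ i, ‖v i‖ = 1)
    (hli : LinearIndependent ℝ v)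
    (hS : SHull v Finset.univ ⊆ {y | ‖y‖ = 1 ∧ InnerProductGeometry.angle c y ≤ R})
    (x : EuclideanSpace ℝ (Fin (d + 1))) (hx : x ∈ SHull v Finset.univ) (ρ : ℝ)
    (hρ : Disjoint {y | ‖y‖ = 1 ∧ InnerProductGeometry.angle x y < ρ}
      (⋃ (s : Finset (Fin (d + 1))) (_ : s.card = k + 1), SHull v s)) :
    ρ ≤ Real.arctan (kap d k * Real.tan R) := by
  obtain ⟨hx1, l, hl, -, hxl⟩ := hx
  have hcosR : 0 < Real.cos R := Real.cos_pos_of_mem_Ioo ⟨by linarith, hR⟩
  have htanR : 0 < Real.tan R := Real.tan_pos_of_pos_of_lt_pi_div_two hR0 hR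
  have hvi : ∀ i, v i ∈ SHull v Finset.univ := by
    intro i
    refine ⟨hv i, fun j => if j = i then 1 else 0, fun j => by positivity,
      fun j hj => absurd (Finset.mem_univ j) hj, ?_⟩
    simp
  have hvC : ∀ i, Real.cos R ≤ ⟪v i, c⟫_ℝ := by
    intro i
    have h1 := (hS (hvi i)).2
    have h2 := Real.cos_le_cos_of_nonneg_of_le_pi (InnerProductGeometry.angle_nonneg c (v i))
      (by linarith [Real.pi_pos]) h1
    have h3 := InnerProductGeometry.cos_angle_mul_norm_mul_norm c (v i)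
    rw [hc, hv i, mul_one, mul_one] at h3
    rw [real_inner_comm]
    linarith
  by_contra hcon
  push Not at hcon
  set rk := Real.arctan (kap d k * Real.tan R) with hrk
  have hrk0 : 0 ≤ rk := Real.arctan_nonneg.2 (mul_nonneg (kap_nonneg d k) htanR.le)
  have hrk1 : rk < Real.pi / 2 := Real.arctan_lt_pi_div_two _
  obtain ⟨ρ', h1, h2⟩ := exists_between (lt_min hcon hrk1)
  have h3 : ρ' < ρ := h2.trans_le (min_le_left _ _)
  have h4 : ρ' < Real.pi / 2 := h2.trans_le (min_le_right _ _)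
  have hρ'0 : 0 < ρ' := hrk0.trans_lt h1
  have hr0 : 0 < Real.cos ρ' := Real.cos_pos_of_mem_Ioo ⟨by linarith, h4⟩
  have hcore := sph_core d k hkd c x v hc hx1 hv hli (Real.cos R) hcosR hvC l hl hxl
    (Real.cos ρ') hr0 ?_
  · have key : ∀ t : ℝ, 0 < Real.cos t → 1 / Real.cos t ^ 2 - 1 = Real.tan t ^ 2 := by
      intro t ht
      rw [Real.tan_eq_sin_div_cos, div_pow, Real.sin_sq]
      field_simp
    rw [key _ hr0, key _ hcosR, ← kap_sq d k hkd, ← mul_pow] at hcore
    have h5 : Real.tan ρ' ≤ kap d k * Real.tan R :=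
      le_of_sq_le_sq hcore (mul_nonneg (kap_nonneg d k) htanR.le)
    have h6 : ρ' ≤ rk := by
      rw [hrk, ← Real.arctan_tan (by linarith : -(Real.pi / 2) < ρ') h4]
      exact Real.arctan_strictMono.monotone h5
    linarith
  · rintro u hu0 ⟨s, hs, hsu⟩
    set y := ∑ i, u i • v i with hy
    rcases eq_or_ne y 0 with h0 | h0
    · rw [h0]; simp
    have hn : 0 < ‖y‖ := norm_pos_iff.2 h0
    have hmem : (1 / ‖y‖) • y ∈ SHull v s := by
      refine ⟨?_, fun i => 1 / ‖y‖ * u i, fun i => mul_nonneg (by positivity) (hu0 i),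
        fun i hi => by simp [hsu i hi], ?_⟩
      · rw [norm_smul, Real.norm_eq_abs, abs_of_pos (by positivity)]
        field_simp
      · rw [hy, Finset.smul_sum]
        exact Finset.sum_congr rfl fun i _ => by rw [smul_smul]
    have hnot : ¬ InnerProductGeometry.angle x ((1 / ‖y‖) • y) < ρ := fun h =>
      Set.disjoint_left.1 hρ ⟨hmem.1, h⟩ (Set.mem_iUnion.2 ⟨s, Set.mem_iUnion.2 ⟨hs, hmem⟩⟩)
    have h5 : Real.cos (InnerProductGeometry.angle x ((1 / ‖y‖) • y)) ≤ Real.cos ρ' :=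
      Real.cos_le_cos_of_nonneg_of_le_pi hρ'0.le (InnerProductGeometry.angle_le_pi _ _)
        (by linarith)
    have h6 := InnerProductGeometry.cos_angle_mul_norm_mul_norm x ((1 / ‖y‖) • y)
    rw [hx1, hmem.1, mul_one, mul_one, inner_smul_right] at h6
    rw [h6] at h5
    have h7 := mul_le_mul_of_nonneg_left h5 hn.le
    have h8 : ‖y‖ * (1 / ‖y‖ * ⟪x, y⟫_ℝ) = ⟪x, y⟫_ℝ := by
      field_simp
    linarith

/-! ### The hyperbolic space -/

/-- The hyperboloid model of hyperbolic `d`-space. -/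
def Hyp (d : ℕ) : Set (ℝ × EuclideanSpace ℝ (Fin d)) := {x | 0 < x.1 ∧ lor x x = 1}

/-- The hyperbolic distance. -/
noncomputable def hdist {d : ℕ} (x y : ℝ × EuclideanSpace ℝ (Fin d)) : ℝ :=
  Real.arcosh (lor x y)

/-- The geodesic convex hull, in hyperbolic space, of the points `v i`, `i ∈ s`. -/
def HHull {d : ℕ} (v : Fin (d + 1) → ℝ × EuclideanSpace ℝ (Fin d)) (s : Finset (Fin (d + 1))) :
    Set (ℝ × EuclideanSpace ℝ (Fin d)) :=
  {y | y ∈ Hyp d ∧ ∃ u : Fin (d + 1) → ℝ, (∀ i, 0 ≤ u i) ∧ (∀ i, i ∉ s → u i = 0) ∧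
    y = ∑ i, u i • v i}

theorem one_sub_inv_cosh (t : ℝ) : 1 - 1 / Real.cosh t ^ 2 = Real.tanh t ^ 2 := by
  rw [Real.tanh_eq_sinh_div_cosh, div_pow, Real.sinh_sq]
  have := (Real.cosh_pos t).ne'
  field_simp

theorem hyp_main (d k : ℕ) (hkd : k < d) (R : ℝ) (hR0 : 0 < R)
    (c : ℝ × EuclideanSpace ℝ (Fin d)) (hc : c ∈ Hyp d)
    (v : Fin (d + 1) → ℝ × EuclideanSpace ℝ (Fin d)) (hv : ∀ i, v i ∈ Hyp d)
    (hli : LinearIndependent ℝ v)
    (hS : HHull v Finset.univ ⊆ {y | y ∈ Hyp d ∧ hdist c y ≤ R})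
    (x : ℝ × EuclideanSpace ℝ (Fin d)) (hx : x ∈ HHull v Finset.univ) (ρ : ℝ)
    (hρ : Disjoint {y | y ∈ Hyp d ∧ hdist x y < ρ}
      (⋃ (s : Finset (Fin (d + 1))) (_ : s.card = k + 1), HHull v s)) :
    ρ ≤ Real.artanh (kap d k * Real.tanh R) := by
  obtain ⟨hx1, l, hl, -, hxl⟩ := hx
  have htR0 : 0 < Real.tanh R := by
    rw [Real.tanh_eq_sinh_div_cosh]
    exact div_pos (Real.sinh_pos_iff.2 hR0) (Real.cosh_pos R)
  have htR1 : Real.tanh R < 1 := Real.tanh_lt_one R
  have hmem : kap d k * Real.tanh R ∈ Set.Ioo (-1 : ℝ) 1 := by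
    have h1 := kap_nonneg d k
    have h2 := kap_le_one d k hkd
    constructor
    · have := mul_nonneg h1 htR0.le
      linarith
    · nlinarith
  have hvi : ∀ i, v i ∈ HHull v Finset.univ := by
    intro i
    refine ⟨hv i, fun j => if j = i then 1 else 0, fun j => by positivity,
      fun j hj => absurd (Finset.mem_univ j) hj, ?_⟩
    simp
  have hvC : ∀ i, lor c (v i) ≤ Real.cosh R := by
    intro i
    have h1 := (hS (hvi i)).2
    have h2 : 1 ≤ lor c (v i) := lor_ge_one c (v i) hc.1 hc.2 (hv i).1 (hv i).2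
    rw [← Real.cosh_arcosh h2, Real.cosh_le_cosh, abs_of_nonneg (Real.arcosh_nonneg h2),
      abs_of_pos hR0]
    exact h1
  by_contra hcon
  push Not at hcon
  have htanh := Real.tanh_artanh hmem
  have hρ0 : 0 < ρ := by
    refine lt_of_le_of_lt ?_ hcon
    by_contra h
    push Not at h
    have h1 : Real.tanh (Real.artanh (kap d k * Real.tanh R)) < 0 := by
      rw [Real.tanh_eq_sinh_div_cosh]
      exact div_neg_of_neg_of_pos (Real.sinh_neg_iff.2 h) (Real.cosh_pos _)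
    rw [htanh] at h1
    have := mul_nonneg (kap_nonneg d k) htR0.le
    linarith
  have hcore := hyp_core d k hkd c x v hc hx1 hv hli (Real.cosh R) (Real.cosh_pos R) hvC l hl hxl
    (Real.cosh ρ) (Real.cosh_pos ρ) ?_
  · rw [one_sub_inv_cosh, one_sub_inv_cosh, ← kap_sq d k hkd, ← mul_pow] at hcore
    have h5 : Real.tanh ρ ≤ kap d k * Real.tanh R :=
      le_of_sq_le_sq hcore (mul_nonneg (kap_nonneg d k) htR0.le)
    have h6 := Real.artanh_le_artanh (Real.neg_one_lt_tanh ρ) hmem.2 h5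
    rw [Real.artanh_tanh] at h6
    linarith
  · rintro u hu0 ⟨s, hs, hsu⟩ hQ
    set y := ∑ i, u i • v i with hy
    have hy1 : 0 < y.1 := by
      have h1 : 0 ≤ y.1 := by
        rw [hy, Prod.fst_sum]
        exact Finset.sum_nonneg fun i _ => by
          rw [Prod.smul_fst, smul_eq_mul]
          exact mul_nonneg (hu0 i) (hv i).1.le
      refine lt_of_le_of_ne h1 fun h => ?_
      simp only [lor, real_inner_self_eq_norm_sq, ← h] at hQ
      nlinarith [sq_nonneg ‖y.2‖]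
    have hsq : 0 < √(lor y y) := Real.sqrt_pos.2 hQ
    have hlin : ∀ (z : ℝ × EuclideanSpace ℝ (Fin d)) (a : ℝ), lor z (a • y) = a * lor z y := by
      intro z a
      simp only [lor, Prod.smul_fst, Prod.smul_snd, real_inner_smul_right, smul_eq_mul]
      ring
    have hlin2 : ∀ (z : ℝ × EuclideanSpace ℝ (Fin d)) (a : ℝ), lor (a • y) z = a * lor y z := by
      intro z a
      simp only [lor, Prod.smul_fst, Prod.smul_snd, real_inner_smul_left, smul_eq_mul]
      ring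
    have hmem2 : (1 / √(lor y y)) • y ∈ HHull v s := by
      refine ⟨⟨?_, ?_⟩, fun i => 1 / √(lor y y) * u i, fun i => mul_nonneg (by positivity) (hu0 i),
        fun i hi => by simp [hsu i hi], ?_⟩
      · rw [Prod.smul_fst, smul_eq_mul]
        positivity
      · rw [hlin, hlin2]
        have h1 : √(lor y y) ^ 2 = lor y y := Real.sq_sqrt hQ.le
        field_simp
        linarith
      · rw [hy, Finset.smul_sum]
        exact Finset.sum_congr rfl fun i _ => by rw [smul_smul]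
    have hnot : ¬ hdist x ((1 / √(lor y y)) • y) < ρ := fun h =>
      Set.disjoint_left.1 hρ ⟨hmem2.1, h⟩ (Set.mem_iUnion.2 ⟨s, Set.mem_iUnion.2 ⟨hs, hmem2⟩⟩)
    have h2 : 1 ≤ lor x ((1 / √(lor y y)) • y) :=
      lor_ge_one _ _ hx1.1 hx1.2 hmem2.1.1 hmem2.1.2
    have h3 : Real.cosh ρ ≤ lor x ((1 / √(lor y y)) • y) := by
      rw [← Real.cosh_arcosh h2, Real.cosh_le_cosh, abs_of_nonneg (Real.arcosh_nonneg h2),
        abs_of_pos hρ0]
      exact not_lt.1 hnot
    rw [hlin] at h3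
    have h4 := mul_le_mul_of_nonneg_left h3 hsq.le
    have h5 : √(lor y y) * (1 / √(lor y y) * lor x y) = lor x y := by
      field_simp
    linarith

end Pool.Agent.Helper826_BF
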