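import Pool.Agent.Helper826_BF.Main

set_option autoImplicit false

/-! The distance from the centre to the `k`-faces of an inscribed regular simplex. -/

namespace Pool.Agent.Helper826_BF

open Finset
open scoped InnerProductSpace

section abs

variable {V : Type*} [AddCommGroup V] [Module ℝ V] {d : ℕ}

theorem gram_const (β : V → V → ℝ) (c : V) (v : Fin (d + 1) → V) (C a : ℝ)
    (hr : ∀ (z : V) (u : Fin (d + 1) → ℝ), β z (∑ i, u i • v i) = ∑ i, u i * β z (v i))
    (hc : β c c = 1) (hcv : ∀ i, β c (v i) = C) (hcv' : ∀ i, β (v i) c = C)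
    (hvv : ∀ i, β (v i) (v i) = 1) (hva : ∀ i j, i ≠ j → β (v i) (v j) = a)
    (γ : Fin (d + 1) → ℝ) (hγ : c = ∑ i, γ i • v i) : ((d : ℝ) + 1) * C ^ 2 = 1 + d * a := by
  have h1 : C * ∑ i, γ i = 1 := by
    have h0 := hr c γ
    rw [← hγ, hc] at h0
    rw [h0, Finset.mul_sum]
    exact Finset.sum_congr rfl fun i _ => by rw [hcv]; ring
  have h2 : ∀ j, C = (1 - a) * γ j + a * ∑ i, γ i := by
    intro j
    have h3 := hcv' j
    rw [hγ, hr] at h3
    rw [← h3, Finset.mul_sum]
    have h4 : ∀ i, γ i * β (v j) (v i) = (if i = j then (1 - a) * γ j else 0) + a * γ i := by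
      intro i
      split_ifs with h
      · rw [h, hvv]; ring
      · rw [hva j i (Ne.symm h)]; ring
    rw [Finset.sum_congr rfl fun i _ => h4 i, Finset.sum_add_distrib, Finset.sum_ite_eq']
    simp
  have h3 : ∑ _j : Fin (d + 1), C = ∑ j, ((1 - a) * γ j + a * ∑ i, γ i) :=
    Finset.sum_congr rfl fun j _ => h2 j
  rw [Finset.sum_const, Finset.sum_add_distrib, ← Finset.mul_sum, Finset.sum_const,
    Finset.card_univ, Fintype.card_fin, nsmul_eq_mul, nsmul_eq_mul] at h3
  push_cast at h3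
  have h4 : ((d : ℝ) + 1) * C = (1 + d * a) * ∑ i, γ i := by linarith
  calc ((d : ℝ) + 1) * C ^ 2 = C * (((d : ℝ) + 1) * C) := by ring
    _ = (1 + d * a) * (C * ∑ i, γ i) := by rw [h4]; ring
    _ = 1 + d * a := by rw [h1, mul_one]

theorem quad_eq (β : V → V → ℝ) (v : Fin (d + 1) → V) (a : ℝ)
    (hr : ∀ (z : V) (u : Fin (d + 1) → ℝ), β z (∑ i, u i • v i) = ∑ i, u i * β z (v i))
    (hsymm : ∀ y z, β y z = β z y)
    (hvv : ∀ i, β (v i) (v i) = 1) (hva : ∀ i j, i ≠ j → β (v i) (v j) = a)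
    (u : Fin (d + 1) → ℝ) :
    β (∑ i, u i • v i) (∑ i, u i • v i) = (1 - a) * ∑ i, u i ^ 2 + a * (∑ i, u i) ^ 2 := by
  rw [hr]
  have h1 : ∀ i, u i * β (∑ j, u j • v j) (v i) = (1 - a) * u i ^ 2 + a * (∑ j, u j) * u i := by
    intro i
    rw [hsymm, hr]
    have h4 : ∀ j, u j * β (v i) (v j) = (if j = i then (1 - a) * u i else 0) + a * u j := by
      intro j
      split_ifs with h
      · rw [h, hvv]; ring
      · rw [hva i j (Ne.symm h)]; ring
    rw [Finset.sum_congr rfl fun j _ => h4 j, Finset.sum_add_distrib, Finset.sum_ite_eq',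
      ← Finset.mul_sum]
    simp only [Finset.mem_univ, if_true]
    ring
  rw [Finset.sum_congr rfl fun i _ => h1 i, Finset.sum_add_distrib, ← Finset.mul_sum,
    ← Finset.mul_sum]
  ring

theorem sum_sq_ge (k : ℕ) (s : Finset (Fin (d + 1))) (hs : s.card = k + 1)
    (u : Fin (d + 1) → ℝ) (hu : ∀ i, i ∉ s → u i = 0) :
    (∑ i, u i) ^ 2 ≤ ((k : ℝ) + 1) * ∑ i, u i ^ 2 := by
  have h1 : ∑ i, u i = ∑ i ∈ s, u i :=
    (Finset.sum_subset (Finset.subset_univ s) fun i _ hi => hu i hi).symm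
  have h2 : ∑ i, u i ^ 2 = ∑ i ∈ s, u i ^ 2 :=
    (Finset.sum_subset (Finset.subset_univ s) fun i _ hi => by rw [hu i hi]; ring).symm
  rw [h1, h2]
  have := sq_sum_le_card_mul_sum_sq (s := s) (f := u)
  rw [hs] at this
  push_cast at this
  exact this

/-- the common algebra of the two geometries -/
theorem alg (k : ℕ) (hkd : k < d) (C a : ℝ) (hC : 0 < C) (h : ((d : ℝ) + 1) * C ^ 2 = 1 + d * a) :
    0 < 1 + k * a ∧ C ^ 2 * (k + 1) * (1 + kap d k ^ 2 * (1 / C ^ 2 - 1)) = 1 + k * a := by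
  have hd : (0 : ℝ) < d := by exact_mod_cast (Nat.zero_le k).trans_lt hkd
  have hkd' : (k : ℝ) < d := by exact_mod_cast hkd
  have hk : (0 : ℝ) ≤ k := Nat.cast_nonneg k
  have ha : a = (((d : ℝ) + 1) * C ^ 2 - 1) / d := by
    rw [eq_div_iff hd.ne']
    linarith
  have h1 : 1 + k * a = (((d : ℝ) - k) + k * (d + 1) * C ^ 2) / d := by
    rw [ha]
    field_simp
    ring
  refine ⟨?_, ?_⟩
  · rw [h1]
    have : 0 < (d : ℝ) - k := by linarith
    positivity
  · rw [h1, kap_sq d k hkd]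
    field_simp
    ring

end abs

theorem sph_regular (d k : ℕ) (hkd : k < d) (R : ℝ) (hR0 : 0 < R) (hR : R < Real.pi / 2)
    (c : EuclideanSpace ℝ (Fin (d + 1))) (hc : ‖c‖ = 1)
    (v : Fin (d + 1) → EuclideanSpace ℝ (Fin (d + 1))) (hv : ∀ i, ‖v i‖ = 1)
    (hli : LinearIndependent ℝ v) (hcv : ∀ i, InnerProductGeometry.angle c (v i) = R)
    (b : ℝ) (hreg : ∀ i j, i ≠ j → InnerProductGeometry.angle (v i) (v j) = b)
    (s : Finset (Fin (d + 1))) (hs : s.card = k + 1) :
    IsLeast ((fun y => InnerProductGeometry.angle c y) '' SHull v s)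
      (Real.arctan (kap d k * Real.tan R)) := by
  have hd : (0 : ℝ) < d := by exact_mod_cast (Nat.zero_le k).trans_lt hkd
  have hk : (0 : ℝ) ≤ k := Nat.cast_nonneg k
  have hcosR : 0 < Real.cos R := Real.cos_pos_of_mem_Ioo ⟨by linarith, hR⟩
  have htanR : 0 < Real.tan R := Real.tan_pos_of_pos_of_lt_pi_div_two hR0 hR
  have hcosR1 : Real.cos R < 1 := by
    have := Real.cos_lt_cos_of_nonneg_of_le_pi (le_refl 0) (by linarith [Real.pi_pos]) hR0
    rwa [Real.cos_zero] at this
  set C := Real.cos R with hCdef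
  set a := Real.cos b with hadef
  have hcv2 : ∀ i, ⟪c, v i⟫_ℝ = C := by
    intro i
    have h3 := InnerProductGeometry.cos_angle_mul_norm_mul_norm c (v i)
    rw [hc, hv i, mul_one, mul_one, hcv i] at h3
    exact h3.symm
  have hva : ∀ i j, i ≠ j → ⟪v i, v j⟫_ℝ = a := by
    intro i j hij
    have h3 := InnerProductGeometry.cos_angle_mul_norm_mul_norm (v i) (v j)
    rw [hv i, hv j, mul_one, mul_one, hreg i j hij] at h3
    exact h3.symm
  have hr : ∀ (z : EuclideanSpace ℝ (Fin (d + 1))) (u : Fin (d + 1) → ℝ),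
      ⟪z, ∑ i, u i • v i⟫_ℝ = ∑ i, u i * ⟪z, v i⟫_ℝ := by
    intro z u
    rw [inner_sum]
    exact Finset.sum_congr rfl fun i _ => by rw [real_inner_smul_right]
  have hrc : ∀ u : Fin (d + 1) → ℝ, ⟪c, ∑ i, u i • v i⟫_ℝ = (∑ i, u i) * C := by
    intro u
    rw [hr, Finset.sum_mul]
    exact Finset.sum_congr rfl fun i _ => by rw [hcv2 i]
  obtain ⟨γ, hγ⟩ : ∃ γ : Fin (d + 1) → ℝ, c = ∑ i, γ i • v i := by
    let B := basisOfLinearIndependentOfCardEqFinrank hli (by simp)
    refine ⟨B.repr c, ?_⟩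
    have := B.sum_repr c
    rw [coe_basisOfLinearIndependentOfCardEqFinrank] at this
    exact this.symm
  have hgram := gram_const (fun y z => ⟪y, z⟫_ℝ) c v C a hr
    (by simp only [real_inner_self_eq_norm_sq, hc]; norm_num) hcv2
    (fun i => by rw [real_inner_comm]; exact hcv2 i)
    (fun i => by simp only [real_inner_self_eq_norm_sq, hv i]; norm_num) hva γ hγ
  have hquad := quad_eq (fun y z => ⟪y, z⟫_ℝ) v a hr (fun y z => real_inner_comm z y)
    (fun i => by simp only [real_inner_self_eq_norm_sq, hv i]; norm_num) hva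
  obtain ⟨hpos, halg⟩ := alg k hkd C a hcosR hgram
  have h1a : 0 < 1 - a := by
    have h1 : (d : ℝ) * (1 - a) = ((d : ℝ) + 1) * (1 - C ^ 2) := by linarith
    have h2 : 0 < ((d : ℝ) + 1) * (1 - C ^ 2) := by
      apply mul_pos (by linarith)
      nlinarith
    rw [← h1] at h2
    exact pos_of_mul_pos_right h2 hd.le
  have htan : Real.tan R ^ 2 = 1 / C ^ 2 - 1 := by
    rw [Real.tan_eq_sin_div_cos, div_pow, Real.sin_sq, ← hCdef]
    field_simp
  set T := 1 + (kap d k * Real.tan R) ^ 2 with hT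
  have hT0 : 0 < T := by positivity
  have hTalg : C ^ 2 * (k + 1) * T = 1 + k * a := by
    rw [hT, mul_pow, htan]
    exact halg
  have hcosrk : Real.cos (Real.arctan (kap d k * Real.tan R)) = 1 / √T := Real.cos_arctan _
  have hrk0 : 0 ≤ Real.arctan (kap d k * Real.tan R) :=
    Real.arctan_nonneg.2 (mul_nonneg (kap_nonneg d k) htanR.le)
  have hrk1 : Real.arctan (kap d k * Real.tan R) < Real.pi / 2 := Real.arctan_lt_pi_div_two _
  have hsT : √T ^ 2 = T := Real.sq_sqrt hT0.le
  have hsT0 : 0 < √T := Real.sqrt_pos.2 hT0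
  constructor
  · -- the barycentre of the face
    set t := 1 / √(((k : ℝ) + 1) * (1 + k * a)) with ht
    have hq0 : 0 < ((k : ℝ) + 1) * (1 + k * a) := by positivity
    have ht0 : 0 < t := by positivity
    have ht2 : t ^ 2 * (((k : ℝ) + 1) * (1 + k * a)) = 1 := by
      rw [ht, div_pow, one_pow, Real.sq_sqrt hq0.le]
      field_simp
    have hU : ∑ i : Fin (d + 1), (if i ∈ s then t else 0) = ((k : ℝ) + 1) * t := by
      rw [Finset.sum_ite_mem, Finset.univ_inter, Finset.sum_const, hs, nsmul_eq_mul]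
      push_cast
      ring
    have hU2 : ∑ i : Fin (d + 1), (if i ∈ s then t else 0) ^ 2 = ((k : ℝ) + 1) * t ^ 2 := by
      have : ∀ i : Fin (d + 1), (if i ∈ s then t else 0) ^ 2 = if i ∈ s then t ^ 2 else 0 := by
        intro i; split_ifs <;> simp
      rw [Finset.sum_congr rfl fun i _ => this i, Finset.sum_ite_mem, Finset.univ_inter,
        Finset.sum_const, hs, nsmul_eq_mul]
      push_cast
      ring
    have hnorm : ‖∑ i, (if i ∈ s then t else 0) • v i‖ = 1 := by
      have h1 := hquad (fun i => if i ∈ s then t else 0)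
      rw [real_inner_self_eq_norm_sq, hU, hU2] at h1
      have h2 : ‖∑ i, (if i ∈ s then t else 0) • v i‖ ^ 2 = 1 := by
        rw [h1]
        linear_combination ht2
      exact (pow_eq_one_iff_of_nonneg (norm_nonneg _) two_ne_zero).1 h2
    refine ⟨∑ i, (if i ∈ s then t else 0) • v i, ⟨hnorm, _, fun i => ?_, fun i hi => ?_, rfl⟩, ?_⟩
    · split_ifs
      · exact ht0.le
      · exact le_refl 0
    · simp [hi]
    · have h3 := InnerProductGeometry.cos_angle_mul_norm_mul_norm c
        (∑ i, (if i ∈ s then t else 0) • v i)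
      rw [hc, hnorm, mul_one, mul_one, hrc, hU] at h3
      refine Real.injOn_cos ⟨InnerProductGeometry.angle_nonneg _ _,
        InnerProductGeometry.angle_le_pi _ _⟩ ⟨hrk0, by linarith [Real.pi_pos]⟩ ?_
      rw [h3, hcosrk, eq_div_iff hsT0.ne']
      have h5 : ((((k : ℝ) + 1) * t * C) * √T) ^ 2 = 1 ^ 2 := by
        rw [mul_pow, hsT]
        have : (((k : ℝ) + 1) * t * C) ^ 2 * T = ((k : ℝ) + 1) * t ^ 2 * (C ^ 2 * (k + 1) * T) := by
          ring
        rw [this, hTalg]
        linear_combination ht2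
      exact (pow_left_inj₀ (by positivity) zero_le_one two_ne_zero).1 h5
  · rintro _ ⟨y, ⟨hy1, u, hu0, hus, hyu⟩, rfl⟩
    simp only
    by_contra hcon
    push Not at hcon
    have h1 := Real.cos_lt_cos_of_nonneg_of_le_pi (InnerProductGeometry.angle_nonneg c y)
      (by linarith [Real.pi_pos]) hcon
    have h3 := InnerProductGeometry.cos_angle_mul_norm_mul_norm c y
    rw [hc, hy1, mul_one, mul_one] at h3
    have h3c : ⟪c, y⟫_ℝ = (∑ i, u i) * C := by rw [hyu]; exact hrc u
    rw [h3, h3c, hcosrk] at h1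
    have h4 := hquad u
    rw [← hyu, real_inner_self_eq_norm_sq, hy1] at h4
    have h5 := sum_sq_ge k s hs u hus
    have hU0 : 0 ≤ ∑ i, u i := Finset.sum_nonneg fun i _ => hu0 i
    have h6 : (∑ i, u i) ^ 2 * (1 + k * a) ≤ k + 1 := by
      nlinarith [mul_le_mul_of_nonneg_left h5 h1a.le]
    have h7 : ((∑ i, u i) * C) ^ 2 * T * (k + 1) ≤ k + 1 := by
      have : ((∑ i, u i) * C) ^ 2 * T * (k + 1) = (∑ i, u i) ^ 2 * (C ^ 2 * (k + 1) * T) := by ring
      rw [this, hTalg]
      exact h6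
    have h8 : ((∑ i, u i) * C) ^ 2 * T ≤ 1 := by
      have hk1 : (0 : ℝ) < k + 1 := by linarith
      by_contra h
      push Not at h
      nlinarith
    have h9 : (∑ i, u i) * C * √T ≤ 1 := by
      refine le_of_sq_le_sq ?_ zero_le_one
      rw [mul_pow, hsT]
      simpa using h8
    rw [div_lt_iff₀ hsT0] at h1
    linarith

theorem hyp_regular (d k : ℕ) (hkd : k < d) (R : ℝ) (hR0 : 0 < R)
    (c : ℝ × EuclideanSpace ℝ (Fin d)) (hc : c ∈ Hyp d)
    (v : Fin (d + 1) → ℝ × EuclideanSpace ℝ (Fin d)) (hv : ∀ i, v i ∈ Hyp d)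
    (hli : LinearIndependent ℝ v) (hcv : ∀ i, hdist c (v i) = R)
    (b : ℝ) (hreg : ∀ i j, i ≠ j → hdist (v i) (v j) = b)
    (s : Finset (Fin (d + 1))) (hs : s.card = k + 1) :
    IsLeast ((fun y => hdist c y) '' HHull v s) (Real.artanh (kap d k * Real.tanh R)) := by
  have hd : (0 : ℝ) < d := by exact_mod_cast (Nat.zero_le k).trans_lt hkd
  have hk : (0 : ℝ) ≤ k := Nat.cast_nonneg k
  have htR0 : 0 < Real.tanh R := by
    rw [Real.tanh_eq_sinh_div_cosh]
    exact div_pos (Real.sinh_pos_iff.2 hR0) (Real.cosh_pos R)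
  have htR1 : Real.tanh R < 1 := Real.tanh_lt_one R
  have hκt0 : 0 ≤ kap d k * Real.tanh R := mul_nonneg (kap_nonneg d k) htR0.le
  have hκt1 : kap d k * Real.tanh R < 1 := by
    have h1 := kap_nonneg d k
    have h2 := kap_le_one d k hkd
    nlinarith
  have hmem : kap d k * Real.tanh R ∈ Set.Ioo (-1 : ℝ) 1 := ⟨by linarith, hκt1⟩
  have hC0 : 0 < Real.cosh R := Real.cosh_pos R
  have hC1 : 1 < Real.cosh R := Real.one_lt_cosh.2 hR0.ne'
  set C := Real.cosh R with hCdef
  set a := Real.cosh b with hadef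
  have hcosh : ∀ y z : ℝ × EuclideanSpace ℝ (Fin d), y ∈ Hyp d → z ∈ Hyp d →
      Real.cosh (hdist y z) = lor y z := fun y z hy hz =>
    Real.cosh_arcosh (lor_ge_one y z hy.1 hy.2 hz.1 hz.2)
  have hcv2 : ∀ i, lor c (v i) = C := by
    intro i
    rw [← hcosh c (v i) hc (hv i), hcv i]
  have hva : ∀ i j, i ≠ j → lor (v i) (v j) = a := by
    intro i j hij
    rw [← hcosh _ _ (hv i) (hv j), hreg i j hij]
  have hr : ∀ (z : ℝ × EuclideanSpace ℝ (Fin d)) (u : Fin (d + 1) → ℝ),
      lor z (∑ i, u i • v i) = ∑ i, u i * lor z (v i) := by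
    intro z u
    have := map_sum (lorL z) (fun i => u i • v i) Finset.univ
    simp only [map_smul, smul_eq_mul] at this
    exact this
  have hsymm : ∀ y z : ℝ × EuclideanSpace ℝ (Fin d), lor y z = lor z y := by
    intro y z
    simp only [lor]
    rw [real_inner_comm, mul_comm]
  have hrc : ∀ u : Fin (d + 1) → ℝ, lor c (∑ i, u i • v i) = (∑ i, u i) * C := by
    intro u
    rw [hr, Finset.sum_mul]
    exact Finset.sum_congr rfl fun i _ => by rw [hcv2 i]
  obtain ⟨γ, hγ⟩ : ∃ γ : Fin (d + 1) → ℝ, c = ∑ i, γ i • v i := by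
    let B := basisOfLinearIndependentOfCardEqFinrank hli (by simp; ring)
    refine ⟨B.repr c, ?_⟩
    have := B.sum_repr c
    rw [coe_basisOfLinearIndependentOfCardEqFinrank] at this
    exact this.symm
  have hgram := gram_const (fun y z => lor y z) c v C a hr hc.2 hcv2
    (fun i => by rw [hsymm]; exact hcv2 i) (fun i => (hv i).2) hva γ hγ
  have hquad := quad_eq (fun y z => lor y z) v a hr hsymm (fun i => (hv i).2) hva
  obtain ⟨hpos, halg⟩ := alg k hkd C a hC0 hgram
  have h1a : 1 - a < 0 := by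
    have h1 : (d : ℝ) * (1 - a) = ((d : ℝ) + 1) * (1 - C ^ 2) := by linarith
    have h2 : ((d : ℝ) + 1) * (1 - C ^ 2) < 0 := by
      apply mul_neg_of_pos_of_neg (by linarith)
      nlinarith
    rw [← h1] at h2
    by_contra h
    push Not at h
    have := mul_nonneg hd.le h
    linarith
  have htan : Real.tanh R ^ 2 = 1 - 1 / C ^ 2 := (one_sub_inv_cosh R).symm
  set T := 1 - (kap d k * Real.tanh R) ^ 2 with hT
  have hT0 : 0 < T := by
    rw [hT]
    nlinarith
  have hTalg : C ^ 2 * (k + 1) * T = 1 + k * a := by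
    rw [hT, mul_pow, htan]
    linarith
  set rk := Real.artanh (kap d k * Real.tanh R) with hrk
  have hcosrk : Real.cosh rk = 1 / √T := Real.cosh_artanh hmem
  have hrk0 : 0 ≤ rk := Real.artanh_nonneg hκt0
  have hsT : √T ^ 2 = T := Real.sq_sqrt hT0.le
  have hsT0 : 0 < √T := Real.sqrt_pos.2 hT0
  constructor
  · set t := 1 / √(((k : ℝ) + 1) * (1 + k * a)) with ht
    have hq0 : 0 < ((k : ℝ) + 1) * (1 + k * a) := by positivity
    have ht0 : 0 < t := by positivity
    have ht2 : t ^ 2 * (((k : ℝ) + 1) * (1 + k * a)) = 1 := by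
      rw [ht, div_pow, one_pow, Real.sq_sqrt hq0.le]
      field_simp
    have hU : ∑ i : Fin (d + 1), (if i ∈ s then t else 0) = ((k : ℝ) + 1) * t := by
      rw [Finset.sum_ite_mem, Finset.univ_inter, Finset.sum_const, hs, nsmul_eq_mul]
      push_cast
      ring
    have hU2 : ∑ i : Fin (d + 1), (if i ∈ s then t else 0) ^ 2 = ((k : ℝ) + 1) * t ^ 2 := by
      have : ∀ i : Fin (d + 1), (if i ∈ s then t else 0) ^ 2 = if i ∈ s then t ^ 2 else 0 := by
        intro i; split_ifs <;> simp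
      rw [Finset.sum_congr rfl fun i _ => this i, Finset.sum_ite_mem, Finset.univ_inter,
        Finset.sum_const, hs, nsmul_eq_mul]
      push_cast
      ring
    have hnorm : lor (∑ i, (if i ∈ s then t else 0) • v i) (∑ i, (if i ∈ s then t else 0) • v i)
        = 1 := by
      have h1 := hquad (fun i => if i ∈ s then t else 0)
      rw [hU, hU2] at h1
      rw [h1]
      linear_combination ht2
    have hy0 : 0 < (∑ i, (if i ∈ s then t else 0) • v i).1 := by
      have h1 : 0 ≤ (∑ i, (if i ∈ s then t else 0) • v i).1 := by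
        rw [Prod.fst_sum]
        refine Finset.sum_nonneg fun i _ => ?_
        rw [Prod.smul_fst, smul_eq_mul]
        refine mul_nonneg ?_ (hv i).1.le
        split_ifs
        · exact ht0.le
        · exact le_refl 0
      refine lt_of_le_of_ne h1 fun h => ?_
      have h2 := hnorm
      simp only [lor, real_inner_self_eq_norm_sq, ← h] at h2
      nlinarith [sq_nonneg ‖(∑ i, (if i ∈ s then t else 0) • v i).2‖]
    refine ⟨∑ i, (if i ∈ s then t else 0) • v i,
      ⟨⟨hy0, hnorm⟩, _, fun i => ?_, fun i hi => ?_, rfl⟩, ?_⟩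
    · split_ifs
      · exact ht0.le
      · exact le_refl 0
    · simp [hi]
    · have h3 := hcosh c _ hc ⟨hy0, hnorm⟩
      rw [hrc, hU] at h3
      have h5 : ((((k : ℝ) + 1) * t * C) * √T) ^ 2 = 1 ^ 2 := by
        rw [mul_pow, hsT]
        have : (((k : ℝ) + 1) * t * C) ^ 2 * T = ((k : ℝ) + 1) * t ^ 2 * (C ^ 2 * (k + 1) * T) := by
          ring
        rw [this, hTalg]
        linear_combination ht2
      have h6 := (pow_left_inj₀ (by positivity) zero_le_one two_ne_zero).1 h5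
      have h7 : Real.cosh (hdist c (∑ i, (if i ∈ s then t else 0) • v i)) = Real.cosh rk := by
        rw [h3, hcosrk, eq_div_iff hsT0.ne']
        exact h6
      have h8 : 0 ≤ hdist c (∑ i, (if i ∈ s then t else 0) • v i) :=
        Real.arcosh_nonneg (lor_ge_one _ _ hc.1 hc.2 hy0 hnorm)
      exact Real.cosh_injOn h8 hrk0 h7
  · rintro _ ⟨y, ⟨hy1, u, hu0, hus, hyu⟩, rfl⟩
    simp only
    have h3 := hcosh c y hc hy1
    have h3' : Real.cosh (hdist c y) = (∑ i, u i) * C := by
      rw [h3]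
      conv_lhs => rw [hyu]
      exact hrc u
    have h4 := hquad u
    rw [← hyu, hy1.2] at h4
    have h5 := sum_sq_ge k s hs u hus
    have hU0 : 0 ≤ ∑ i, u i := Finset.sum_nonneg fun i _ => hu0 i
    have h6 : (k : ℝ) + 1 ≤ (∑ i, u i) ^ 2 * (1 + k * a) := by
      nlinarith [mul_le_mul_of_nonpos_left h5 h1a.le]
    have h7 : (k : ℝ) + 1 ≤ ((∑ i, u i) * C) ^ 2 * T * (k + 1) := by
      have : ((∑ i, u i) * C) ^ 2 * T * (k + 1) = (∑ i, u i) ^ 2 * (C ^ 2 * (k + 1) * T) := by ring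
      rw [this, hTalg]
      exact h6
    have h8 : 1 ≤ ((∑ i, u i) * C) ^ 2 * T := by
      have hk1 : (0 : ℝ) < k + 1 := by linarith
      by_contra h
      push Not at h
      nlinarith
    have h9 : 1 ≤ (∑ i, u i) * C * √T := by
      refine le_of_sq_le_sq ?_ (by positivity)
      rw [mul_pow, hsT]
      simpa using h8
    have h10 : Real.cosh rk ≤ Real.cosh (hdist c y) := by
      rw [h3', hcosrk, div_le_iff₀ hsT0]
      exact h9
    have h11 : 0 ≤ hdist c y := Real.arcosh_nonneg (lor_ge_one _ _ hc.1 hc.2 hy1.1 hy1.2)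
    rw [Real.cosh_le_cosh, abs_of_nonneg hrk0, abs_of_nonneg h11] at h10
    exact h10

end Pool.Agent.Helper826_BF
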